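import Pool.Agent.helper62.QU.Spec

/-!
# Project qu (MP_07c750_an): row BDD
-/

set_option autoImplicit false

open scoped MatrixGroups ContDiff Topology UpperHalfPlane
open UpperHalfPlane MeasureTheory Filter Set

namespace Pool.Agent.QU

theorem BDD_dist (Γ : Subgroup SL(2, ℝ)) (γ : Γ) (z w : ℍ) : dist (γ • z) (γ • w) = dist z w := by
  rw [Subgroup.smul_def, Subgroup.smul_def]
  exact dist_smul (γ : SL(2, ℝ)) z w

theorem BDD_bound (Γ : Subgroup SL(2, ℝ)) (g : ℍ → ℝ) (hΓ : SurfaceGroup Γ) (hg : Inv Γ g) :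
    ∃ m : ℝ, ∀ z, |g z| ≤ m := by
  obtain ⟨K, hK, hc⟩ := hΓ.cocompact
  obtain ⟨m, hm⟩ := hK.exists_bound_of_continuousOn (f := g) hg.1.continuousOn
  refine ⟨m, fun z => ?_⟩
  obtain ⟨γ, hγ⟩ := hc z
  rw [← hg.2 γ z]
  exact hm _ hγ

theorem BDD_max (Γ : Subgroup SL(2, ℝ)) (g : ℍ → ℝ) (hΓ : SurfaceGroup Γ) (hg : Inv Γ g) :
    ∃ z₀, ∀ z, g z ≤ g z₀ := by
  obtain ⟨K, hK, hc⟩ := hΓ.cocompact
  have hne : K.Nonempty := by
    obtain ⟨γ, hγ⟩ := hc UpperHalfPlane.I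
    exact ⟨_, hγ⟩
  obtain ⟨z₀, _, hz₀⟩ := hK.exists_isMaxOn hne hg.1.continuousOn
  refine ⟨z₀, fun z => ?_⟩
  obtain ⟨γ, hγ⟩ := hc z
  rw [← hg.2 γ z]
  exact hz₀ hγ

theorem BDD_unif (Γ : Subgroup SL(2, ℝ)) (g : ℍ → ℝ) (hΓ : SurfaceGroup Γ) (hg : Inv Γ g) :
    UniformContinuous g := by
  obtain ⟨K, hK, hc⟩ := hΓ.cocompact
  have hK' : IsCompact (Metric.cthickening 1 K) := hK.cthickening
  have hu := hK'.uniformContinuousOn_of_continuous (f := g) hg.1.continuousOn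
  rw [Metric.uniformContinuousOn_iff] at hu
  rw [Metric.uniformContinuous_iff]
  intro ε hε
  obtain ⟨δ, hδ, h⟩ := hu ε hε
  refine ⟨min δ 1, lt_min hδ one_pos, fun z w hzw => ?_⟩
  obtain ⟨γ, hγ⟩ := hc z
  have h1 : dist (γ • z) (γ • w) < min δ 1 := by rw [BDD_dist]; exact hzw
  have h2 := h (γ • z) (Metric.self_subset_cthickening K hγ) (γ • w) ?_
    (lt_of_lt_of_le h1 (min_le_left _ _))
  · rw [hg.2, hg.2] at h2
    exact h2
  · refine Metric.mem_cthickening_of_dist_le (γ • w) (γ • z) 1 K hγ ?_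
    rw [dist_comm]
    exact (lt_of_lt_of_le h1 (min_le_right _ _)).le

theorem BDD (h1 : INV_stmt) (h2 : DOB_stmt) : BDD_stmt := by
  intro Γ F g hΓ hF hg
  refine ⟨BDD_bound Γ g hΓ hg, BDD_unif Γ g hΓ hg, BDD_max Γ g hΓ hg, ?_⟩
  intro h0
  obtain ⟨hcount, hfd, _, hfin, _, _⟩ := h2 Γ F hΓ hF
  obtain ⟨_, hinv, hpos, _, _⟩ := h1
  have hinvΓ := hinv Γ
  obtain ⟨m, hm⟩ := BDD_bound Γ g hΓ hg
  have hint : IntegrableOn (fun z => g z ^ 2) F := by
    have hmeas : AEStronglyMeasurable (fun z => g z ^ 2) ((volume : Measure ℍ).restrict F) :=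
      (hg.1.pow 2).aestronglyMeasurable
    have hb : ∀ᵐ z ∂((volume : Measure ℍ).restrict F), ‖g z ^ 2‖ ≤ m ^ 2 := by
      refine Filter.Eventually.of_forall fun z => ?_
      rw [Real.norm_eq_abs, abs_pow]
      exact pow_le_pow_left₀ (abs_nonneg _) (hm z) 2
    exact IntegrableOn.of_bound hfin hmeas (m ^ 2) hb
  have hae : (fun z => g z ^ 2) =ᵐ[(volume : Measure ℍ).restrict F] 0 := by
    refine (integral_eq_zero_iff_of_nonneg (fun z => sq_nonneg (g z)) hint).1 h0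
  have hnull : (volume : Measure ℍ) ({z | g z ≠ 0} ∩ F) = 0 := by
    have h3 : ∀ᵐ z ∂((volume : Measure ℍ).restrict F), g z = 0 := by
      filter_upwards [hae] with z hz
      exact pow_eq_zero_iff (two_ne_zero) |>.1 hz
    rw [ae_iff, Measure.restrict_apply' hF.meas] at h3
    exact h3
  have hz : (volume : Measure ℍ) {z | g z ≠ 0} = 0 := by
    refine hfd.measure_zero_of_invariant _ (fun γ => ?_) hnull
    ext z
    rw [mem_smul_set_iff_inv_smul_mem]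
    show g (γ⁻¹ • z) ≠ 0 ↔ g z ≠ 0
    rw [hg.2]
  have hopen : IsOpen {z | g z ≠ 0} := isOpen_ne_fun hg.1 continuous_const
  have hempty := (hopen.measure_eq_zero_iff (volume : Measure ℍ)).1 hz
  intro z
  by_contra hne
  have : z ∈ {z | g z ≠ 0} := hne
  rw [hempty] at this
  exact this

end Pool.Agent.QU
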